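import Mathlib
import Pool.Agent.W796.QLAnal
import Pool.Agent.Helper256.KM.Mertens

/-!
# Spheres with many lattice points in dimensions three and four, quantitative version
-/

set_option autoImplicit false
set_option linter.style.haveILetI false

open Finset Filter Topology

namespace Pool.Agent.Y131.QL

open Pool.Agent.W796.QL

/-- the local factor -/
noncomputable def lf (p : ℕ) : ℝ := 1 + 1 / (p : ℝ) - 1 / (p : ℝ) ^ 2

theorem local_ge {p : ℕ} [hp : Fact p.Prime] (hp2 : p ≠ 2) :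
    ((p : ℝ) ^ 2 * lf p ≤ cnt (ZMod p) 3 (-1)) ∧
    ((p : ℝ) ^ 3 * lf p ≤ cnt (ZMod p) 4 0) := by
  have hp3 : (2 : ℝ) ≤ p := by exact_mod_cast hp.out.two_le
  have hp0 : (0 : ℝ) < p := by linarith
  unfold lf
  constructor
  · have h := cnt3 hp2 (-1 : ZMod p)
    rw [neg_neg, map_one, one_mul] at h
    have h' : ((cnt (ZMod p) 3 (-1) : ℕ) : ℝ) = (p : ℝ) ^ 2 + p := by exact_mod_cast h
    rw [h']
    have : (p : ℝ) ^ 2 * (1 + 1 / (p : ℝ) - 1 / (p : ℝ) ^ 2) = p ^ 2 + p - 1 := by field_simp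
    rw [this]; linarith
  · have h := cnt4 (p := p) hp2
    have h' : ((cnt (ZMod p) 4 0 : ℕ) : ℝ) = (p : ℝ) ^ 3 + p ^ 2 - p := by exact_mod_cast h
    rw [h']
    have : (p : ℝ) ^ 3 * (1 + 1 / (p : ℝ) - 1 / (p : ℝ) ^ 2) = p ^ 3 + p ^ 2 - p := by field_simp
    rw [this]

theorem local_ge' {p : ℕ} (hp : p.Prime) (hp2 : p ≠ 2) {D : ℕ} (hD : D = 3 ∨ D = 4) [NeZero p] :
    (p : ℝ) ^ (D - 1) * lf p ≤ cnt (ZMod p) D ((cls D : ℤ) : ZMod p) := by
  have : Fact p.Prime := ⟨hp⟩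
  have h := local_ge (p := p) hp2
  rcases hD with rfl | rfl
  · have h1 := h.1
    unfold cls
    simp only [if_true, Int.cast_neg, Int.cast_one]
    convert h1 using 2
  · have h1 := h.2
    unfold cls
    norm_num
    norm_num at h1
    convert h1 using 2

theorem lf_pos {p : ℕ} (hp : 1 ≤ p) : 0 < lf p := by
  unfold lf
  have h1 : (1 : ℝ) ≤ p := by exact_mod_cast hp
  have h2 : 1 / (p : ℝ) ≤ 1 := by rw [div_le_one (by linarith)]; exact h1
  have h3 : 1 / (p : ℝ) ^ 2 = (1 / (p : ℝ)) ^ 2 := by rw [div_pow, one_pow]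
  have h4 : 0 < 1 / (p : ℝ) := by positivity
  rw [h3]; nlinarith

theorem cm_prod (D : ℕ) (hD : D = 3 ∨ D = 4) (P : Finset ℕ) (hP : ∀ p ∈ P, p.Prime ∧ p ≠ 2) :
    ((∏ p ∈ P, p : ℕ) : ℝ) ^ (D - 1) * ∏ p ∈ P, lf p ≤
      cm D (cls D) (∏ p ∈ P, p) := by
  classical
  induction P using Finset.induction_on with
  | empty => simp [cm_one]
  | insert p P hpP ih =>
    have ih' := ih (fun q hq => hP q (mem_insert_of_mem hq))
    have hp := hP p (mem_insert_self _ _)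
    rw [prod_insert hpP, prod_insert hpP]
    have hp0 : p ≠ 0 := hp.1.ne_zero
    have hQ0 : (∏ p ∈ P, p) ≠ 0 :=
      prod_ne_zero_iff.2 (fun q hq => (hP q (mem_insert_of_mem hq)).1.ne_zero)
    have hco : p.Coprime (∏ p ∈ P, p) := by
      apply Nat.Coprime.prod_right
      intro q hq
      rw [Nat.coprime_primes hp.1 (hP q (mem_insert_of_mem hq)).1]
      rintro rfl
      exact hpP hq
    rw [cm_mul D _ hp0 hQ0 hco]
    push_cast
    have : NeZero p := ⟨hp0⟩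
    have h1 := local_ge' hp.1 hp.2 hD
    rw [← cm_eq] at h1
    push_cast at ih'
    have hpos : 0 ≤ ∏ x ∈ P, lf x := prod_nonneg (fun q hq =>
      (lf_pos (hP q (mem_insert_of_mem hq)).1.one_le).le)
    calc ((p : ℝ) * ∏ x ∈ P, (x : ℝ)) ^ (D - 1) * (lf p * ∏ x ∈ P, lf x)
        = ((p : ℝ) ^ (D - 1) * lf p) * ((∏ x ∈ P, (x : ℝ)) ^ (D - 1) *
          ∏ x ∈ P, lf x) := by rw [mul_pow]; ring
      _ ≤ _ := by
        apply mul_le_mul h1 ih'
        · exact mul_nonneg (pow_nonneg (prod_nonneg (fun _ _ => Nat.cast_nonneg _)) _) hpos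
        · positivity

/-- pigeonhole in a box of side `M Q` -/
theorem rich_box (D : ℕ) (hD : D = 3 ∨ D = 4) (a : ℤ) (Q M : ℕ) (hQ : Q ≠ 0) (hM : M ≠ 0) :
    ∃ n : ℕ, n ≤ D * (M * Q) ^ 2 ∧
      (M : ℝ) ^ D * (cm D a Q : ℝ) ≤ (D * (M ^ 2 * Q) : ℕ) * (Sph D n).card := by
  classical
  have : NeZero Q := ⟨hQ⟩
  have hQ0 : 0 < Q := Nat.pos_of_ne_zero hQ
  have hM0 : 0 < M := Nat.pos_of_ne_zero hM
  rw [cm_eq]
  unfold cnt
  obtain ⟨s0, hs0⟩ : ∃ s, s = univ.filter (fun x : Fin D → ZMod Q => ∑ i, x i ^ 2 = (a : ZMod Q)) :=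
    ⟨_, rfl⟩
  rw [← hs0]
  obtain ⟨s, hs⟩ : ∃ s, s = (univ : Finset (Fin D → Fin M)) ×ˢ s0 := ⟨_, rfl⟩
  have hscard : (s.card : ℝ) = (M : ℝ) ^ D * s0.card := by
    rw [hs, card_product]
    simp
  rw [← hscard]
  obtain ⟨t, ht⟩ : ∃ t, t = (range (D * (M * Q) ^ 2)).filter
    (fun v : ℕ => ((v : ℕ) : ZMod Q) = (a : ZMod Q)) := ⟨_, rfl⟩
  let g : (Fin D → Fin M) × (Fin D → ZMod Q) → Fin D → ℕ := fun y i => (y.2 i).val + Q * (y.1 i : ℕ)
  have hg : ∀ y i, g y i < M * Q := by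
    intro y i
    have h1 := ZMod.val_lt (y.2 i)
    have h2 : (y.1 i : ℕ) + 1 ≤ M := (y.1 i).2
    calc g y i < Q + Q * (y.1 i : ℕ) := by
          change (y.2 i).val + Q * (y.1 i : ℕ) < _
          omega
      _ = Q * ((y.1 i : ℕ) + 1) := by ring
      _ ≤ Q * M := Nat.mul_le_mul_left _ h2
      _ = M * Q := by ring
  have hf : ∀ x ∈ s, (∑ i, (g x i) ^ 2) ∈ t := by
    intro x hx
    rw [hs, mem_product] at hx
    have hx2 := hx.2
    rw [hs0, mem_filter] at hx2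
    rw [ht, mem_filter, mem_range]
    constructor
    · have h1 : ∀ i, (g x i) ^ 2 < (M * Q) ^ 2 := fun i =>
        Nat.pow_lt_pow_left (hg x i) (by norm_num)
      have hne : (univ : Finset (Fin D)).Nonempty := by
        rcases hD with rfl | rfl <;> exact univ_nonempty
      calc ∑ i, (g x i) ^ 2 < ∑ _i : Fin D, (M * Q) ^ 2 := sum_lt_sum_of_nonempty hne (fun i _ => h1 i)
        _ = D * (M * Q) ^ 2 := by simp
    · push_cast
      rw [← hx2.2]
      refine sum_congr rfl (fun i _ => ?_)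
      change (((((x.2 i).val + Q * (x.1 i : ℕ) : ℕ)) : ZMod Q)) ^ 2 = _
      push_cast
      rw [ZMod.natCast_zmod_val]
      simp
  by_cases hse : s.Nonempty
  swap
  · rw [not_nonempty_iff_eq_empty] at hse
    refine ⟨0, by positivity, ?_⟩
    rw [hse]
    simp
    positivity
  have hte : t.Nonempty := by
    obtain ⟨x, hx⟩ := hse
    exact ⟨_, hf x hx⟩
  have htc : t.card ≤ D * (M ^ 2 * Q) := by
    have : t.card ≤ (range (D * (M ^ 2 * Q))).card := by
      refine card_le_card_of_injOn (fun v => v / Q) ?_ ?_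
      · intro v hv
        rw [ht] at hv
        simp only [coe_filter, mem_range, Set.mem_ofPred_eq] at hv
        simp only [coe_range, Set.mem_Iio]
        rw [Nat.div_lt_iff_lt_mul hQ0]
        calc v < D * (M * Q) ^ 2 := hv.1
          _ = D * (M ^ 2 * Q) * Q := by ring
      · intro v hv w hw hvw
        rw [ht] at hv hw
        simp only [coe_filter, mem_range, Set.mem_ofPred_eq] at hv hw
        have h1 : (v : ZMod Q) = (w : ZMod Q) := hv.2.trans hw.2.symm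
        rw [ZMod.natCast_eq_natCast_iff'] at h1
        have h2 : v / Q = w / Q := hvw
        rw [← Nat.div_add_mod v Q, ← Nat.div_add_mod w Q, h1, h2]
    rwa [card_range] at this
  have htc0 : (0 : ℝ) < t.card := by exact_mod_cast card_pos.2 hte
  obtain ⟨n, hn, hcard⟩ := exists_le_card_fiber_of_nsmul_le_card_of_maps_to (M := ℝ) hf hte
    (b := (s.card : ℝ) / t.card) (by rw [nsmul_eq_mul]; field_simp; rfl)
  refine ⟨n, ?_, ?_⟩
  · rw [ht, mem_filter, mem_range] at hn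
    exact hn.1.le
  · rw [div_le_iff₀ htc0] at hcard
    have h1 : (s.filter (fun x => ∑ i, (g x i) ^ 2 = n)).card ≤ (Sph D n).card := by
      refine card_le_card_of_injOn (fun x i => ((g x i : ℕ) : ℤ)) ?_ ?_
      · intro x hx
        simp only [coe_filter, Set.mem_ofPred_eq] at hx
        rw [mem_coe, mem_Sph]
        have := hx.2
        change ∑ i, ((g x i : ℕ) : ℤ) ^ 2 = (n : ℤ)
        exact_mod_cast this
      · intro x _ y _ hxy
        have hxy' : ∀ i, g x i = g y i := by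
          intro i
          have := congrFun hxy i
          simp only [Nat.cast_inj] at this
          exact this
        refine Prod.ext (funext fun i => ?_) (funext fun i => ?_)
        · have h3 : (x.2 i).val + Q * (x.1 i : ℕ) = (y.2 i).val + Q * (y.1 i : ℕ) := hxy' i
          have h4 : ((x.2 i).val + Q * (x.1 i : ℕ)) / Q = (x.1 i : ℕ) := by
            rw [Nat.add_mul_div_left _ _ hQ0, Nat.div_eq_of_lt (ZMod.val_lt _), zero_add]
          have h5 : ((y.2 i).val + Q * (y.1 i : ℕ)) / Q = (y.1 i : ℕ) := by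
            rw [Nat.add_mul_div_left _ _ hQ0, Nat.div_eq_of_lt (ZMod.val_lt _), zero_add]
          apply Fin.ext
          rw [← h4, ← h5, h3]
        · have h3 : (x.2 i).val + Q * (x.1 i : ℕ) = (y.2 i).val + Q * (y.1 i : ℕ) := hxy' i
          have h4 : ((x.2 i).val + Q * (x.1 i : ℕ)) % Q = (x.2 i).val := by
            rw [Nat.add_mul_mod_self_left, Nat.mod_eq_of_lt (ZMod.val_lt _)]
          have h5 : ((y.2 i).val + Q * (y.1 i : ℕ)) % Q = (y.2 i).val := by
            rw [Nat.add_mul_mod_self_left, Nat.mod_eq_of_lt (ZMod.val_lt _)]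
          apply ZMod.val_injective Q
          rw [← h4, ← h5, h3]
    have h2 : ((s.filter (fun x => ∑ i, (g x i) ^ 2 = n)).card : ℝ) ≤ (Sph D n).card := by
      exact_mod_cast h1
    have h3 : (t.card : ℝ) ≤ (D * (M ^ 2 * Q) : ℕ) := by exact_mod_cast htc
    calc (s.card : ℝ) ≤ _ := hcard
      _ ≤ (Sph D n).card * (D * (M ^ 2 * Q) : ℕ) := by
        apply mul_le_mul h2 h3 (by positivity) (by positivity)
      _ = _ := by ring

theorem lf_ge {p : ℕ} (hp : 3 ≤ p) : Real.exp (1 / (p : ℝ) - 2 / (p : ℝ) ^ 2) ≤ lf p := by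
  have h1 : (3 : ℝ) ≤ p := by exact_mod_cast hp
  obtain ⟨x, hx⟩ : ∃ x : ℝ, x = 1 / (p : ℝ) := ⟨_, rfl⟩
  have hx0 : 0 < x := by rw [hx]; positivity
  have hx1 : x ≤ 1 / 3 := by
    rw [hx]; exact one_div_le_one_div_of_le (by norm_num) h1
  have h2 : 2 / (p : ℝ) ^ 2 = 2 * x ^ 2 := by rw [hx, div_pow, one_pow]; ring
  have h3 : lf p = 1 + x - x ^ 2 := by unfold lf; rw [hx, div_pow, one_pow]
  rw [h2, h3, ← hx]
  have h4 : |x - 2 * x ^ 2| ≤ 1 := by
    rw [abs_le]; constructor <;> nlinarith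
  have h5 := Real.abs_exp_sub_one_sub_id_le h4
  have h6 := (abs_le.1 h5).2
  have h7 : (x - 2 * x ^ 2) ^ 2 ≤ x ^ 2 := by
    have : 0 ≤ x - 2 * x ^ 2 := by nlinarith
    have : x - 2 * x ^ 2 ≤ x := by nlinarith
    nlinarith
  linarith

/-- the odd primes up to `z` -/
def oddP (z : ℕ) : Finset ℕ := ((Icc 1 z).filter Nat.Prime).erase 2

theorem mem_oddP {z p : ℕ} (h : p ∈ oddP z) : p.Prime ∧ p ≠ 2 := by
  unfold oddP at h
  rw [mem_erase, mem_filter] at h
  exact ⟨h.2.2, h.1⟩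

theorem oddP_prod_le (z : ℕ) : ∏ p ∈ oddP z, p ≤ 4 ^ z := by
  refine le_trans ?_ (primorial_le_four_pow z)
  unfold primorial
  apply prod_le_prod_of_subset_of_one_le'
  · intro p hp
    unfold oddP at hp
    rw [mem_erase, mem_filter, mem_Icc] at hp
    rw [mem_filter, mem_range]
    exact ⟨by omega, hp.2.2⟩
  · intro p hp _
    rw [mem_filter] at hp
    exact hp.2.one_le

theorem lf_prod : ∃ c : ℝ, 0 < c ∧ ∀ z : ℕ, 3 ≤ z → c * Real.log z ≤ ∏ p ∈ oddP z, lf p := by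
  obtain ⟨C, hC⟩ := Pool.Agent.Helper256.KM.mertens_inv
  have hs : Summable (fun n : ℕ => 1 / (n : ℝ) ^ 2) := Real.summable_one_div_nat_pow.2 (by norm_num)
  obtain ⟨B, hB⟩ : ∃ B, B = ∑' n : ℕ, 1 / (n : ℝ) ^ 2 := ⟨_, rfl⟩
  refine ⟨Real.exp (-C - 1 - 2 * B), Real.exp_pos _, fun z hz => ?_⟩
  have hz3 : (3 : ℝ) ≤ z := by exact_mod_cast hz
  have hlog : 1 < Real.log z := by
    rw [Real.lt_log_iff_exp_lt (by linarith)]
    have := Real.exp_one_lt_d9
    linarith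
  have h1 : ∏ p ∈ oddP z, Real.exp (1 / (p : ℝ) - 2 / (p : ℝ) ^ 2) ≤ ∏ p ∈ oddP z, lf p := by
    apply Finset.prod_le_prod
    · intro p _; positivity
    · intro p hp
      obtain ⟨h2, h3⟩ := mem_oddP hp
      apply lf_ge
      have := h2.two_le
      omega
  refine le_trans ?_ h1
  rw [← Real.exp_sum, sum_sub_distrib]
  have h2 := (abs_le.1 (hC z hz)).1
  have h3 : ∑ p ∈ (Icc 1 z).filter Nat.Prime, (1 : ℝ) / p ≤ ∑ p ∈ oddP z, (1 : ℝ) / p + 1 := by
    unfold oddP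
    by_cases h : 2 ∈ (Icc 1 z).filter Nat.Prime
    · rw [← add_sum_erase _ _ h]
      norm_num
      linarith
    · rw [erase_eq_of_notMem h]
      linarith
  have h4 : ∑ p ∈ oddP z, 2 / (p : ℝ) ^ 2 ≤ 2 * B := by
    have h5 : ∑ p ∈ oddP z, 2 / (p : ℝ) ^ 2 = 2 * ∑ p ∈ oddP z, 1 / (p : ℝ) ^ 2 := by
      rw [mul_sum]
      exact sum_congr rfl (fun p _ => by ring)
    rw [h5, hB]
    apply mul_le_mul_of_nonneg_left _ (by norm_num)
    exact hs.sum_le_tsum _ (fun n _ => by positivity)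
  have h6 : Real.exp (-C - 1 - 2 * B) * Real.log z =
      Real.exp (Real.log (Real.log z) + (-C - 1 - 2 * B)) := by
    rw [Real.exp_add, Real.exp_log (by linarith)]; ring
  rw [h6]
  apply Real.exp_le_exp.2
  linarith

/-- Spheres with many lattice points: for all large `T` there is `n ≤ D T²` such that the sphere
of radius `√n` has at least `c T^(D-2) log log T` lattice points. -/
theorem rich (D : ℕ) (hD : D = 3 ∨ D = 4) :
    ∃ c : ℝ, 0 < c ∧ ∃ T0 : ℕ, ∀ T : ℕ, T0 ≤ T → ∃ n : ℕ, n ≤ D * T ^ 2 ∧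
      c * (T : ℝ) ^ (D - 2) * Real.log (Real.log T) ≤ (Sph D n).card := by
  obtain ⟨c0, hc0, hlf⟩ := lf_prod
  refine ⟨c0 / (2 * D * 2 ^ (D - 2)), by rcases hD with rfl | rfl <;> positivity, 16 ^ 6, ?_⟩
  intro T hT
  obtain ⟨z, hz⟩ : ∃ z, z = Nat.log 16 T := ⟨_, rfl⟩
  have hT0 : T ≠ 0 := by
    have : 0 < 16 ^ 6 := by positivity
    omega
  have hTbig : (16777216 : ℝ) ≤ T := by
    have h : 16777216 ≤ T := le_trans (by norm_num) hT
    exact_mod_cast h
  have hz6 : 6 ≤ z := by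
    rw [hz]
    exact Nat.le_log_of_pow_le (by norm_num) hT
  have hz1 : 16 ^ z ≤ T := by rw [hz]; exact Nat.pow_log_le_self 16 hT0
  have hz2 : T < 16 ^ (z + 1) := by rw [hz]; exact Nat.lt_pow_succ_log_self (by norm_num) T
  obtain ⟨Q, hQ⟩ : ∃ Q, Q = ∏ p ∈ oddP z, p := ⟨_, rfl⟩
  have hQ0 : Q ≠ 0 := by
    rw [hQ]
    exact prod_ne_zero_iff.2 (fun q hq => (mem_oddP hq).1.ne_zero)
  have hQ1 : 1 ≤ Q := Nat.one_le_iff_ne_zero.2 hQ0
  have hQ4 : Q ≤ 4 ^ z := by rw [hQ]; exact oddP_prod_le z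
  have hQT : 2 * Q ≤ T := by
    have h1 : 2 * 4 ^ z ≤ 16 ^ z := by
      have h2 : (16 : ℕ) ^ z = 4 ^ z * 4 ^ z := by rw [← mul_pow]; norm_num
      have h3 : 2 ≤ 4 ^ z := by
        calc 2 ≤ 4 ^ 1 := by norm_num
          _ ≤ 4 ^ z := Nat.pow_le_pow_right (by norm_num) (by omega)
      rw [h2]
      exact Nat.mul_le_mul_right _ h3
    omega
  obtain ⟨M, hM⟩ : ∃ M, M = T / Q := ⟨_, rfl⟩
  have hMQ : M * Q ≤ T := by rw [hM]; exact Nat.div_mul_le_self T Q
  have hMQ2 : T ≤ 2 * (M * Q) := by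
    have h1 : T < (M + 1) * Q := by
      rw [hM]
      have := Nat.lt_mul_div_succ T (Nat.pos_of_ne_zero hQ0)
      rw [mul_comm]
      exact this
    have h2 : (M + 1) * Q = M * Q + Q := by ring
    omega
  have hM0 : M ≠ 0 := by
    rintro h
    rw [h] at hMQ2
    omega
  obtain ⟨n, hn, h2⟩ := rich_box D hD (cls D) Q M hQ0 hM0
  have h1 := cm_prod D hD (oddP z) (fun p hp => mem_oddP hp)
  rw [← hQ] at h1
  have h3 := hlf z (by omega)
  refine ⟨n, hn.trans (Nat.mul_le_mul_left _ (Nat.pow_le_pow_left hMQ 2)), ?_⟩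
  have hDr : (3 : ℝ) ≤ D := by rcases hD with rfl | rfl <;> norm_num
  have hD0 : (0 : ℝ) < D := by linarith
  have hMr : (0 : ℝ) < M := by exact_mod_cast Nat.pos_of_ne_zero hM0
  have hQr : (0 : ℝ) < Q := by exact_mod_cast Nat.pos_of_ne_zero hQ0
  have hz6r : (6 : ℝ) ≤ z := by exact_mod_cast hz6
  -- logarithms
  have hTr : (0 : ℝ) < T := by exact_mod_cast Nat.pos_of_ne_zero hT0
  have hlogT : Real.log T ≤ (z + 1) * 3 := by
    have h4 : (T : ℝ) ≤ 16 ^ (z + 1) := by exact_mod_cast hz2.le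
    have h5 := Real.log_le_log hTr h4
    rw [Real.log_pow] at h5
    have h6 : Real.log 16 ≤ 3 := by
      have h7 : (16 : ℝ) = 2 ^ 4 := by norm_num
      rw [h7, Real.log_pow]
      have := Real.log_two_lt_d9
      norm_num
      linarith
    push_cast at h5
    nlinarith
  have hloglog : Real.log (Real.log T) ≤ 2 * Real.log z := by
    have h4 : (1 : ℝ) < Real.log T := by
      rw [Real.lt_log_iff_exp_lt hTr]
      have h5 := Real.exp_one_lt_d9
      linarith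
    have h5 : Real.log T ≤ (z : ℝ) ^ 2 := by nlinarith
    calc Real.log (Real.log T) ≤ Real.log ((z : ℝ) ^ 2) := Real.log_le_log (by linarith) h5
      _ = 2 * Real.log z := by rw [Real.log_pow]; norm_num
  have h4 : (M : ℝ) ^ D * ((Q : ℝ) ^ (D - 1) * (c0 * Real.log z)) ≤
      (D * (M ^ 2 * Q) : ℕ) * (Sph D n).card := by
    refine le_trans ?_ h2
    apply mul_le_mul_of_nonneg_left _ (by positivity)
    refine le_trans ?_ h1
    apply mul_le_mul_of_nonneg_left h3 (by positivity)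
  have hD1 : D - 1 = (D - 2) + 1 := by rcases hD with rfl | rfl <;> rfl
  have hD2 : D = (D - 2) + 2 := by rcases hD with rfl | rfl <;> rfl
  have h5 : ((M : ℝ) * Q) ^ (D - 2) * (c0 * Real.log z) ≤ D * (Sph D n).card := by
    push_cast at h4
    have h6 : (M : ℝ) ^ D * ((Q : ℝ) ^ (D - 1) * (c0 * Real.log z)) =
        (M ^ 2 * Q) * (((M : ℝ) * Q) ^ (D - 2) * (c0 * Real.log z)) := by
      rw [hD1]
      nth_rewrite 1 [hD2]
      rw [mul_pow]
      ring
    rw [h6] at h4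
    have h7 : (D : ℝ) * (M ^ 2 * Q) * (Sph D n).card = (M ^ 2 * Q) * (D * (Sph D n).card) := by ring
    rw [h7] at h4
    exact le_of_mul_le_mul_left h4 (by positivity)
  have h6 : (T : ℝ) ^ (D - 2) ≤ 2 ^ (D - 2) * ((M : ℝ) * Q) ^ (D - 2) := by
    rw [← mul_pow]
    apply pow_le_pow_left₀ hTr.le
    exact_mod_cast hMQ2
  have hlz : 0 < Real.log z := Real.log_pos (by linarith)
  have h7 : c0 / (2 * D * 2 ^ (D - 2)) * (T : ℝ) ^ (D - 2) * Real.log (Real.log T) ≤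
      c0 / (2 * D * 2 ^ (D - 2)) * (2 ^ (D - 2) * ((M : ℝ) * Q) ^ (D - 2)) * (2 * Real.log z) := by
    have h8 : 0 ≤ Real.log (Real.log T) := by
      apply Real.log_nonneg
      rw [Real.le_log_iff_exp_le hTr]
      have h5 := Real.exp_one_lt_d9
      linarith
    gcongr
  refine h7.trans ?_
  have h8 : c0 / (2 * D * 2 ^ (D - 2)) * (2 ^ (D - 2) * ((M : ℝ) * Q) ^ (D - 2)) * (2 * Real.log z) =
      (((M : ℝ) * Q) ^ (D - 2) * (c0 * Real.log z)) / D := by
    field_simp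
  rw [h8, div_le_iff₀ hD0]
  linarith

end Pool.Agent.Y131.QL
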