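import Mathlib
import Pool.Agent.Y131.QL.Count

/-!
# Choice of the parameters, for every small radius
-/

set_option autoImplicit false

open Finset Filter Topology

namespace Pool.Agent.Y131.QL

open Pool.Agent.W796.QL

theorem params (E : ℕ) (hE : E = 2 ∨ E = 3) :
    ∃ c r0 : ℝ, 0 < c ∧ 0 < r0 ∧ r0 < 1 ∧ ∀ r : ℝ, 0 < r → r < r0 → ∃ n q : ℕ,
      2 * q ^ E < (Sph (E + 1) n).card ∧ 10 * (Real.sqrt n * r) ≤ q ∧
      ((Sph (E + 1) n).card : ℝ) * Real.exp (-(2 * q)) ≤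
        Real.exp (-(c * Real.log (Real.log (1 / r)) * r⁻¹ ^ (E - 1))) := by
  obtain ⟨c1, hc1, T0, hT0⟩ := rich (E + 1) (by omega)
  have hlim : Tendsto (fun q : ℕ => 2 * ((q : ℝ) + 1) ^ E * Real.exp (-(q : ℝ))) atTop (𝓝 0) := by
    have h1 := (Real.tendsto_pow_mul_exp_neg_atTop_nhds_zero E).comp
      (tendsto_natCast_atTop_atTop (R := ℝ) |>.atTop_add tendsto_const_nhds (C := (1 : ℝ)))
    have h2 := h1.const_mul (2 * Real.exp 1)
    rw [mul_zero] at h2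
    refine h2.congr (fun q => ?_)
    simp only [Function.comp]
    have : Real.exp (-(q : ℝ)) = Real.exp 1 * Real.exp (-((q : ℝ) + 1)) := by
      rw [← Real.exp_add]; congr 1; ring
    rw [this]; ring
  obtain ⟨q0, hq0⟩ := eventually_atTop.1 (hlim.eventually_lt_const one_pos)
  obtain ⟨a, ha⟩ : ∃ a : ℝ, a = min 1 (c1 / 80 ^ E) := ⟨_, rfl⟩
  have ha0 : 0 < a := by rw [ha]; exact lt_min one_pos (by positivity)
  have ha1 : a ≤ 1 := by rw [ha]; exact min_le_left _ _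
  have hac : a * 80 ^ E ≤ c1 := by
    have : a ≤ c1 / 80 ^ E := by rw [ha]; exact min_le_right _ _
    rwa [le_div_iff₀ (by positivity)] at this
  obtain ⟨S0, hS0⟩ : ∃ S0 : ℝ, S0 = Real.exp (Real.exp 1) + 2 / a + (T0 + 1) + q0 / (20 * a) + 2 :=
    ⟨_, rfl⟩
  have hE1 : 0 < Real.exp (Real.exp 1) := Real.exp_pos _
  have hE2 : 0 < 2 / a := by positivity
  have hE3 : (0 : ℝ) ≤ T0 := Nat.cast_nonneg _
  have hE4 : 0 ≤ (q0 : ℝ) / (20 * a) := by positivity
  have hS00 : 2 < S0 := by rw [hS0]; linarith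
  refine ⟨20 * a, 1 / S0, by positivity, by positivity, ?_, ?_⟩
  · rw [div_lt_one (by linarith)]; linarith
  intro r hr hr0
  obtain ⟨s, hs⟩ : ∃ s : ℝ, s = r⁻¹ := ⟨_, rfl⟩
  have hsS : S0 < s := by
    rw [hs, ← one_div, lt_div_iff₀ hr]
    rw [lt_div_iff₀ (by linarith)] at hr0
    linarith
  have hr1 : 1 / r = s := by rw [hs, one_div]
  have hs2 : 2 < s := by linarith
  have hse : Real.exp (Real.exp 1) ≤ s := by linarith
  have hsa : 2 ≤ a * s := by
    have h1 : 2 / a ≤ s := by linarith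
    rw [div_le_iff₀ ha0] at h1
    linarith
  have hsT : (T0 : ℝ) + 1 ≤ s := by linarith
  have hsq : (q0 : ℝ) ≤ 20 * a * s := by
    have h1 : (q0 : ℝ) / (20 * a) ≤ s := by linarith
    rw [div_le_iff₀ (by positivity)] at h1
    linarith
  rw [← hs, hr1]
  obtain ⟨L, hL⟩ : ∃ L : ℝ, L = Real.log (Real.log s) := ⟨_, rfl⟩
  have hlogs : Real.exp 1 ≤ Real.log s := by
    rw [Real.le_log_iff_exp_le (by linarith)]; exact hse
  have hlogs0 : 0 < Real.log s := lt_of_lt_of_le (Real.exp_pos _) hlogs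
  have hL1 : 1 ≤ L := by
    rw [hL, Real.le_log_iff_exp_le hlogs0]; exact hlogs
  rw [← hL]
  obtain ⟨X, hX⟩ : ∃ X : ℝ, X = a * L * s ^ E := ⟨_, rfl⟩
  have hsE : s ^ 2 ≤ s ^ E := pow_le_pow_right₀ (by linarith) (by omega)
  have hX1 : a * s ^ 2 ≤ X := by
    rw [hX]
    have h1 : 0 ≤ a * s ^ E := by positivity
    calc a * s ^ 2 ≤ a * s ^ E := mul_le_mul_of_nonneg_left hsE ha0.le
      _ ≤ a * L * s ^ E := by nlinarith
  have hX2 : 2 * s ≤ X := by nlinarith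
  obtain ⟨T, hT⟩ : ∃ T : ℕ, T = ⌊X⌋₊ := ⟨_, rfl⟩
  have hX0 : 0 ≤ X := by linarith
  have hTX : (T : ℝ) ≤ X := by rw [hT]; exact Nat.floor_le hX0
  have hTX1 : X < T + 1 := by rw [hT]; exact Nat.lt_floor_add_one X
  have hTs : s ≤ T := by linarith
  have hTX2 : X / 2 ≤ T := by linarith
  have hTT0 : T0 ≤ T := by
    have : (T0 : ℝ) ≤ T := by linarith
    exact_mod_cast this
  obtain ⟨n, hn, hrich⟩ := hT0 T hTT0
  have hlT : L ≤ Real.log (Real.log T) := by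
    rw [hL]
    apply Real.log_le_log hlogs0
    exact Real.log_le_log (by linarith) hTs
  have hE1' : E + 1 - 2 = E - 1 := by omega
  rw [hE1'] at hrich
  obtain ⟨N, hN⟩ : ∃ N, N = (Sph (E + 1) n).card := ⟨_, rfl⟩
  rw [← hN] at hrich
  have hT00 : (0 : ℝ) < T := by linarith
  have hN1 : c1 * (X / 2) ^ (E - 1) * L ≤ N := by
    refine le_trans ?_ hrich
    gcongr
  have hexN : ∃ q : ℕ, N ≤ 2 * (q + 1) ^ E := by
    refine ⟨N, ?_⟩
    have : N + 1 ≤ (N + 1) ^ E := Nat.le_self_pow (by omega) _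
    omega
  classical
  obtain ⟨q, hq⟩ : ∃ q, q = Nat.find hexN := ⟨_, rfl⟩
  have hqs : N ≤ 2 * (q + 1) ^ E := by rw [hq]; exact Nat.find_spec hexN
  have hqr : (N : ℝ) ≤ 2 * ((q : ℝ) + 1) ^ E := by exact_mod_cast hqs
  -- lower bound for q
  have hEE : E = (E - 1) + 1 := by omega
  have hlow : (40 * a * L * s ^ (E - 1)) ^ E ≤ ((q : ℝ) + 1) ^ E := by
    have h1 : c1 * (X / 2) ^ (E - 1) * L ≤ 2 * ((q : ℝ) + 1) ^ E := hN1.trans hqr
    have h2 : (a * 80 ^ E) * (X / 2) ^ (E - 1) * L ≤ c1 * (X / 2) ^ (E - 1) * L := by gcongr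
    have h3 : (a * 80 ^ E) * (X / 2) ^ (E - 1) * L = 2 * (40 * a * L * s ^ (E - 1)) ^ E := by
      rw [hX]
      rcases hE with rfl | rfl
      · norm_num
        ring
      · norm_num
        ring
    linarith
  have hlow2 : 40 * a * L * s ^ (E - 1) ≤ (q : ℝ) + 1 :=
    le_of_pow_le_pow_left₀ (by omega) (by positivity) hlow
  have hsE1 : s ≤ s ^ (E - 1) := by
    calc s = s ^ 1 := (pow_one s).symm
      _ ≤ s ^ (E - 1) := pow_le_pow_right₀ (by linarith) (by omega)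
  have hbig : a * s ≤ a * L * s ^ (E - 1) := by
    have h1 : a * s ≤ a * s ^ (E - 1) := mul_le_mul_of_nonneg_left hsE1 ha0.le
    have h2 : 0 ≤ a * s ^ (E - 1) := by positivity
    nlinarith
  have hlow3 : 20 * a * L * s ^ (E - 1) ≤ (q : ℝ) := by linarith
  have hqq0 : q0 ≤ q := by
    have : (q0 : ℝ) ≤ q := by linarith
    exact_mod_cast this
  have hq1 : 1 ≤ q := by
    have : (1 : ℝ) ≤ q := by linarith
    exact_mod_cast this
  refine ⟨n, q, ?_, ?_, ?_⟩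
  · rw [← hN]
    have h1 : ¬ (N ≤ 2 * ((q - 1) + 1) ^ E) := by
      apply Nat.find_min hexN
      rw [← hq]; omega
    rw [Nat.sub_add_cancel hq1] at h1
    omega
  · refine le_trans ?_ hlow3
    have h1 : Real.sqrt n ≤ 2 * X := by
      apply Real.sqrt_le_iff.2
      refine ⟨by positivity, ?_⟩
      have h2 : (n : ℝ) ≤ (E + 1) * (T : ℝ) ^ 2 := by exact_mod_cast hn
      have h3 : (E : ℝ) + 1 ≤ 4 := by
        rcases hE with rfl | rfl <;> norm_num
      calc (n : ℝ) ≤ (E + 1) * (T : ℝ) ^ 2 := h2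
        _ ≤ 4 * X ^ 2 := by gcongr
        _ = (2 * X) ^ 2 := by ring
    have h2 : r = s⁻¹ := by rw [hs, inv_inv]
    calc 10 * (Real.sqrt n * r) ≤ 10 * ((2 * X) * r) := by gcongr
      _ = 20 * a * L * s ^ (E - 1) * (s * r) := by
        rw [hX]
        nth_rewrite 1 [hEE]
        rw [pow_succ]; ring
      _ = 20 * a * L * s ^ (E - 1) := by
        rw [h2, mul_inv_cancel₀ (by linarith), mul_one]
  · rw [← hN]
    have h1 := (hq0 q hqq0).le
    calc (N : ℝ) * Real.exp (-(2 * q)) = (N * Real.exp (-(q : ℝ))) * Real.exp (-(q : ℝ)) := by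
          rw [mul_assoc, ← Real.exp_add]; congr 2; ring
      _ ≤ (2 * ((q : ℝ) + 1) ^ E * Real.exp (-(q : ℝ))) * Real.exp (-(q : ℝ)) := by gcongr
      _ ≤ 1 * Real.exp (-(q : ℝ)) := by gcongr
      _ ≤ Real.exp (-(20 * a * L * s ^ (E - 1))) := by
        rw [one_mul]
        apply Real.exp_le_exp.2
        linarith

end Pool.Agent.Y131.QL
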